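import Pool.Agent.H61.KU.TA
import Pool.Agent.H24.LB.CHT

/-!
# CHP: charts of the complex projective plane
-/

open Topology Set
open Pool.Agent.H59 Pool.Agent.H64.LB

namespace Pool.Agent.H24.KU

theorem finrank_C2 : Module.finrank ℝ (Fin 4 → ℝ) = Module.finrank ℝ (Fin 2 → ℂ) := by
  rw [Module.finrank_pi_fintype, Module.finrank_pi_fintype]
  simp

theorem pf_chp (hH : Pool.Agent.H61.KU.T_HOM) : Pool.Agent.H61.KU.T_CHP := by
  intro x
  let e : (Fin 4 → ℝ) ≃L[ℝ] (Fin 2 → ℂ) := ContinuousLinearEquiv.ofFinrankEq finrank_C2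
  obtain ⟨h, hh⟩ := hH 2 (chart (e 0)) x
  refine ⟨fun y => h (chart (e y)), ?_, hh⟩
  exact h.isOpenEmbedding.comp
    (Pool.Agent.H24.LB.isOpenEmbedding_chart.comp e.toHomeomorph.isOpenEmbedding)

end Pool.Agent.H24.KU
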