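import Pool.Agent.H61.KU.TA

/-!
# DI5: no 5-dimensional ball embeds in the complex projective plane
-/

open Topology Set
open Pool.Agent.H59 Pool.Agent.H64.LB

namespace Pool.Agent.H24.KU

theorem continuous_snoc_left (s : ℝ) :
    Continuous (fun y : Fin 4 → ℝ => (Fin.snoc y s : Fin 5 → ℝ)) := by
  refine continuous_pi fun i => ?_
  refine Fin.lastCases ?_ (fun i => ?_) i
  · simp only [Fin.snoc_last]
    exact continuous_const
  · simp only [Fin.snoc_castSucc]
    exact continuous_apply i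

theorem continuous_snoc_right (x : Fin 4 → ℝ) :
    Continuous (fun s : ℝ => (Fin.snoc x s : Fin 5 → ℝ)) := by
  refine continuous_pi fun i => ?_
  refine Fin.lastCases ?_ (fun i => ?_) i
  · simp only [Fin.snoc_last]
    exact continuous_id
  · simp only [Fin.snoc_castSucc]
    exact continuous_const

theorem snoc_init_last (x : Fin 5 → ℝ) :
    (Fin.snoc (fun i : Fin 4 => x i.castSucc) (x (Fin.last 4)) : Fin 5 → ℝ) = x := by
  funext i
  refine Fin.lastCases ?_ (fun i => ?_) i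
  · simp only [Fin.snoc_last]
  · simp only [Fin.snoc_castSucc]

theorem pf_di5 (hD : Pool.Agent.H61.KU.T_DOX) : Pool.Agent.H61.KU.T_DI5 := by
  intro U g hU hne hg hinj
  obtain ⟨x, hx⟩ := hne
  set x' : Fin 4 → ℝ := fun i => x i.castSucc with hx'
  set a : ℝ := x (Fin.last 4) with ha
  have hxx : (Fin.snoc x' a : Fin 5 → ℝ) = x := snoc_init_last x
  let V : Set (Fin 4 → ℝ) := {y | (Fin.snoc y a : Fin 5 → ℝ) ∈ U}
  have hV : IsOpen V := hU.preimage (continuous_snoc_left a)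
  have hx'V : x' ∈ V := by
    change (Fin.snoc x' a : Fin 5 → ℝ) ∈ U
    rw [hxx]; exact hx
  have hg1 : ContinuousOn (fun y : Fin 4 → ℝ => g (Fin.snoc y a)) V :=
    hg.comp (continuous_snoc_left a).continuousOn fun y hy => hy
  have hinj1 : InjOn (fun y : Fin 4 → ℝ => g (Fin.snoc y a)) V := by
    intro y hy z hz h
    have h1 : (Fin.snoc y a : Fin 5 → ℝ) = Fin.snoc z a := hinj hy hz h
    funext i
    have h2 := congrFun h1 i.castSucc
    simp only [Fin.snoc_castSucc] at h2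
    exact h2
  have hO : IsOpen ((fun y : Fin 4 → ℝ => g (Fin.snoc y a)) '' V) := hD V _ hV hg1 hinj1
  -- the last coordinate moves
  have hc1 : ContinuousAt (fun s : ℝ => g (Fin.snoc x' s)) a := by
    have h1 : ContinuousAt g (Fin.snoc x' a : Fin 5 → ℝ) := by
      rw [hxx]
      exact hg.continuousAt (hU.mem_nhds hx)
    exact ContinuousAt.comp (f := fun s : ℝ => (Fin.snoc x' s : Fin 5 → ℝ)) (g := g) h1
      (continuous_snoc_right x').continuousAt
  have hmem : (fun y : Fin 4 → ℝ => g (Fin.snoc y a)) '' V ∈ 𝓝 (g (Fin.snoc x' a)) :=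
    hO.mem_nhds ⟨x', hx'V, rfl⟩
  have hev1 := hc1.eventually hmem
  have hU' : (fun s : ℝ => (Fin.snoc x' s : Fin 5 → ℝ)) ⁻¹' U ∈ 𝓝 a := by
    refine (hU.preimage (continuous_snoc_right x')).mem_nhds ?_
    change (Fin.snoc x' a : Fin 5 → ℝ) ∈ U
    rw [hxx]; exact hx
  have hev2 : ∀ᶠ s in 𝓝[≠] a, g (Fin.snoc x' s) ∈ (fun y : Fin 4 → ℝ => g (Fin.snoc y a)) '' V ∧
      (Fin.snoc x' s : Fin 5 → ℝ) ∈ U ∧ s ≠ a := by
    filter_upwards [nhdsWithin_le_nhds hev1, nhdsWithin_le_nhds hU', self_mem_nhdsWithin]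
      with s h1 h2 h3
    exact ⟨h1, h2, h3⟩
  obtain ⟨s, ⟨y, hy, hys⟩, hsU, hsa⟩ := hev2.exists
  have h2 : (Fin.snoc y a : Fin 5 → ℝ) = Fin.snoc x' s := hinj hy hsU hys
  have h3 := congrFun h2 (Fin.last 4)
  simp only [Fin.snoc_last] at h3
  exact hsa h3.symm

end Pool.Agent.H24.KU
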